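import Pool.Agent.X310.MuCx
import Pool.Agent.X310.MuGrp
import Pool.Agent.X27.Cln.Iso

/-!
# Iwasawa's conjecture on `μ` and irreducible modules

For a number field `F ⊆ ℂ` let `MuZero p F` be the statement of the frozen statement S18027 for `p` and `F`, which says
(for odd `p`) that `μ = 0` for the cyclotomic `ℤ_p`-extension of `F`. For a subgroup `D` of `Aut F` let `fx F D` be the
field of the `x ∈ F` fixed by `D`. Let `H` and the `D i` be subgroups of `Aut F` of orders prime to `p` such that every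
irreducible `𝔽_p[Aut F]`-module with a nonzero `H`-fixed vector has a nonzero `D i`-fixed vector for some `i`
(`Dominates p H D`). `comms c` is the subgroup generated by the commutators `g c g⁻¹ c⁻¹`.

* For each Galois extension `E` of `ℚ` of `p`-power degree, `v_p h(F^H E) ≤ |Aut F| * ∑ i, v_p h(F^{D_i} E)`. So if
  `μ(F^{D_i}) = 0` for all `i`, then `μ(F^H) = 0`.
* Let `p` be odd and `c ∈ Aut F`, `c² = 1`. If `c ∈ comms c`, then `μ(F) = 0` if and only if `μ(F^c) = 0`.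
* This holds for all the involutions `c` of nonabelian simple subgroups of `Aut F`.
* If `p` does not divide the order of `comms c`, then `μ(F) = 0` if and only if `μ(F^c) = 0` and `μ(F^{comms c}) = 0`.
* Granted the theorem of Ferrero and Washington, if `F / ℚ` is Galois and `p` does not divide the order of `comms c` and
  the quotient by `comms c` is abelian, then `μ(F) = 0` if and only if `μ(F^c) = 0`.
-/

set_option autoImplicit false

open NumberField

namespace Pool.Agent.Results.MP_a4986b_nt.DominatedFixedFields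

open Pool.Agent.X27.Cln Pool.Agent.X310.Mu

/-- The statement of `S18027` for the prime `p` and the field `F`. -/
def MuZero (p : ℕ) (F : IntermediateField ℚ ℂ) : Prop :=
  ∃ C : ℕ, ∀ m : ℕ, ∀ E : IntermediateField ℚ ℂ,
    E ≤ IntermediateField.adjoin ℚ {z : ℂ | z ^ (p ^ (m + 1)) = 1} →
    Module.finrank ℚ E = p ^ m →
    padicValNat p (Nat.card (ClassGroup (𝓞 ↥(F ⊔ E)))) ≤ C * (m + 1)

/-- The theorem of Ferrero and Washington for the prime `p`. -/
def FerreroWashington (p : ℕ) : Prop :=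
  ∀ F : IntermediateField ℚ ℂ, FiniteDimensional ℚ F → IsGalois ℚ F →
    (∀ σ τ : F ≃ₐ[ℚ] F, σ * τ = τ * σ) → MuZero p F

theorem fx_bot (F : IntermediateField ℚ ℂ) : fx F ⊥ = F := by
  apply le_antisymm (fx_le F ⊥)
  intro x hx
  refine ⟨⟨x, hx⟩, (IntermediateField.mem_fixedField_iff ⊥ _).2 ?_, rfl⟩
  intro f hf
  rw [Subgroup.mem_bot] at hf
  rw [hf]
  rfl

theorem mu_dom {p : ℕ} (hp : p.Prime) (F : IntermediateField ℚ ℂ) (_ : FiniteDimensional ℚ F)
    {ι : Type} [Fintype ι] (H : Subgroup (F ≃ₐ[ℚ] F)) (D : ι → Subgroup (F ≃ₐ[ℚ] F))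
    (hH : ¬ p ∣ Nat.card H) (hD : ∀ i, ¬ p ∣ Nat.card (D i)) (hdom : Dominates p H D)
    (h : ∀ i, MuZero p (fx F (D i))) : MuZero p (fx F H) := by
  have hpf : Fact p.Prime := ⟨hp⟩
  choose C hC using h
  refine ⟨Nat.card (F ≃ₐ[ℚ] F) * ∑ i, C i, fun m E hE hEf => ?_⟩
  have hfd : FiniteDimensional ℚ E := FiniteDimensional.of_finrank_pos (by rw [hEf]; exact pow_pos hp.pos m)
  have hg : IsGalois ℚ E := abelian_of_le _ (pow_pos hp.pos _) E hE
  refine (padic_dom_cx F E m hEf H D hH hD hdom).trans ?_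
  rw [mul_assoc]
  refine Nat.mul_le_mul_left _ ?_
  rw [Finset.sum_mul]
  exact Finset.sum_le_sum fun i _ => hC i m E hE hEf

theorem mu_sub {p : ℕ} (hp : p.Prime) (F : IntermediateField ℚ ℂ) (_ : FiniteDimensional ℚ F)
    (D : Subgroup (F ≃ₐ[ℚ] F)) (hD : ¬ p ∣ Nat.card D) (h : MuZero p F) : MuZero p (fx F D) := by
  have hpf : Fact p.Prime := ⟨hp⟩
  obtain ⟨C, hC⟩ := h
  refine ⟨C, fun m E hE hEf => ?_⟩
  have hfd : FiniteDimensional ℚ E := FiniteDimensional.of_finrank_pos (by rw [hEf]; exact pow_pos hp.pos m)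
  exact (padic_ge_cx F E D hD).trans (hC m E hE hEf)

theorem card_bot {p : ℕ} (hp : p.Prime) {G : Type} [Group G] : ¬ p ∣ Nat.card (⊥ : Subgroup G) := by
  rw [Subgroup.card_bot]
  exact hp.one_lt.ne' ∘ Nat.dvd_one.1

theorem mu_inv {p : ℕ} (hp : p.Prime) (hp2 : p ≠ 2) (F : IntermediateField ℚ ℂ) (hF : FiniteDimensional ℚ F)
    (c : F ≃ₐ[ℚ] F) (hc : c * c = 1) (hcc : c ∈ comms c) :
    MuZero p F ↔ MuZero p (fx F (Subgroup.zpowers c)) := by
  constructor
  · exact mu_sub hp F hF _ (card_zpowers_two hp hp2 hc)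
  · intro h
    have h1 := mu_dom hp F hF ⊥ (fun _ : Unit => Subgroup.zpowers c) (card_bot hp)
      (fun _ => card_zpowers_two hp hp2 hc) (dominates_single hp hp2 hc hcc ⊥) (fun _ => h)
    rwa [fx_bot] at h1

theorem mu_pair {p : ℕ} (hp : p.Prime) (hp2 : p ≠ 2) (F : IntermediateField ℚ ℂ) (hF : FiniteDimensional ℚ F)
    (c : F ≃ₐ[ℚ] F) (hc : c * c = 1) (hN : ¬ p ∣ Nat.card (comms c)) :
    MuZero p F ↔ MuZero p (fx F (Subgroup.zpowers c)) ∧ MuZero p (fx F (comms c)) := by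
  constructor
  · exact fun h => ⟨mu_sub hp F hF _ (card_zpowers_two hp hp2 hc) h, mu_sub hp F hF _ hN h⟩
  · rintro ⟨h, h'⟩
    have h1 := mu_dom hp F hF ⊥ (pair c) (card_bot hp)
      (by rintro (_ | _); exacts [hN, card_zpowers_two hp hp2 hc]) (dominates_pair hc ⊥)
      (by rintro (_ | _); exacts [h', h])
    rwa [fx_bot] at h1

theorem result (p : ℕ) (hp : p.Prime) :
    (∀ F : IntermediateField ℚ ℂ, FiniteDimensional ℚ F → ∀ (ι : Type) [Fintype ι]
      (H : Subgroup (F ≃ₐ[ℚ] F)) (D : ι → Subgroup (F ≃ₐ[ℚ] F)),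
      ¬ p ∣ Nat.card H → (∀ i, ¬ p ∣ Nat.card (D i)) → Dominates p H D →
      (∀ E : IntermediateField ℚ ℂ, FiniteDimensional ℚ E → IsGalois ℚ E →
        ∀ m, Module.finrank ℚ E = p ^ m →
        padicValNat p (Nat.card (ClassGroup (𝓞 ↥(fx F H ⊔ E)))) ≤
          Nat.card (F ≃ₐ[ℚ] F) * ∑ i, padicValNat p (Nat.card (ClassGroup (𝓞 ↥(fx F (D i) ⊔ E))))) ∧
      ((∀ i, MuZero p (fx F (D i))) → MuZero p (fx F H))) ∧
    (p ≠ 2 → ∀ F : IntermediateField ℚ ℂ, FiniteDimensional ℚ F → ∀ c : F ≃ₐ[ℚ] F, c * c = 1 →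
      (c ∈ comms c → (MuZero p F ↔ MuZero p (fx F (Subgroup.zpowers c)))) ∧
      (c ≠ 1 → (∃ Γ : Subgroup (F ≃ₐ[ℚ] F), IsSimpleGroup Γ ∧ (∃ a b : Γ, a * b ≠ b * a) ∧ c ∈ Γ) →
        (MuZero p F ↔ MuZero p (fx F (Subgroup.zpowers c)))) ∧
      (¬ p ∣ Nat.card (comms c) →
        (MuZero p F ↔ MuZero p (fx F (Subgroup.zpowers c)) ∧ MuZero p (fx F (comms c)))) ∧
      (FerreroWashington p → IsGalois ℚ F → ¬ p ∣ Nat.card (comms c) →
        (∀ g h : F ≃ₐ[ℚ] F, g * h * g⁻¹ * h⁻¹ ∈ comms c) →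
        (MuZero p F ↔ MuZero p (fx F (Subgroup.zpowers c))))) := by
  have hpf : Fact p.Prime := ⟨hp⟩
  refine ⟨fun F hF ι _ H D hH hD hdom => ⟨fun E hE hEg m hm => ?_, mu_dom hp F hF H D hH hD hdom⟩,
    fun hp2 F hF c hc => ⟨mu_inv hp hp2 F hF c hc, ?_, mu_pair hp hp2 F hF c hc, ?_⟩⟩
  · exact padic_dom_cx F E m hm H D hH hD hdom
  · rintro hc1 ⟨Γ, hΓ, hn, hcΓ⟩
    exact mu_inv hp hp2 F hF c hc (comms_of_simple Γ hn hcΓ hc1)
  · intro hFW hG hN hab
    rw [mu_pair hp hp2 F hF c hc hN]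
    have h1 := abelian_fx F (B := comms c) hab
    have h2 := hFW _ (fx_fd F _) h1.1 h1.2
    exact ⟨fun h => h.1, fun h => ⟨h, h2⟩⟩

end Pool.Agent.Results.MP_a4986b_nt.DominatedFixedFields
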