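import Pool.Agent.X310.RcMu

/-!
# Iwasawa's conjecture on `μ` for real fields and CM fields

Number fields are subfields of a fixed algebraic closure of `ℚ`, and `p` is odd. For a number field `F` let `MuZero p F` be the
statement of the frozen statement S18027 for `p` and `F`, which says that `μ = 0` for the cyclotomic `ℤ_p`-extension of
`F`.

Assume that `MuZero p` is cohomological: there is a class of pairs (a number field `K`, a finite `𝔽_p`-representation `M`
of the Galois group over `K`) which is closed under quotients and extensions, satisfies the lemma of Shapiro for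
permutation modules and contains `(K, 𝔽_p)` if and only if `μ = 0` for `K`. This is known; the class is given by
`H²(G_S(K_∞), M(1)) = 0`. Then:

* Iwasawa's conjecture for `p` and all number fields is equivalent to the conjecture for the number fields `K` such that
  `K` has a real embedding or is a CM field of degree prime to `p`, and such that `Aut K` has an irreducible
  `𝔽_p`-module on which only `1` fixes a nonzero vector (so that `Aut K` is trivial or a Frobenius complement of order
  prime to `p`).
* If `Aut M` has no such module, then `μ = 0` for `M` follows from `μ = 0` for all proper subfields of `M`.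
* Let `N` be a finite Galois extension of `ℚ` and let `𝒦` be a set of subfields of `N` such that each irreducible
  `𝔽_p[Gal(N/ℚ)]`-module has a nonzero vector fixed by `Gal(N/K)` for some `K` in `𝒦`. Then `μ = 0` for `N` if and only if
  `μ = 0` for all `K` in `𝒦`.
* Let `c` be a complex conjugation, `N⁺` (`realPart N c`) the field of the elements of `N` fixed by `c`, and `N'`
  (`cmPart N c`) the largest subfield of `N` on which `c` commutes with all automorphisms (it is totally real or CM).
  Then `μ = 0` for `N` if and only if `μ = 0` for `N⁺` and `N'`. If `N' ⊂ N⁺`, or if `N'` is abelian over `ℚ` and the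
  theorem of Ferrero and Washington is granted, then `μ = 0` for `N` if and only if `μ = 0` for `N⁺`.

For example, for all odd `p`, `μ = 0` for an extension `N` with the symmetric group as Galois group, or for the field
`N` of the `ℓ`-torsion points of an elliptic curve over `ℚ` with Galois group `GL₂(𝔽_ℓ)`, `ℓ > 3`, if and only if
`μ = 0` for the maximal real subfield of `N`.
-/

set_option autoImplicit false

namespace Pool.Agent.Results.MP_a4986b_nt.RealAndCMFields

open Pool.Agent.X307.MU Pool.Agent.X310.Rc NumberField

/-- The statement of `S18027` for the prime `p` and the field `F`, inside the algebraic closure of `ℚ`. -/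
def MuZero (p : ℕ) (F : Fld ℚ) : Prop :=
  ∃ C : ℕ, ∀ m : ℕ, ∀ E : Fld ℚ,
    E ≤ IntermediateField.adjoin ℚ {z : AlgebraicClosure ℚ | z ^ (p ^ (m + 1)) = 1} →
    Module.finrank ℚ E = p ^ m →
    padicValNat p (Nat.card (ClassGroup (𝓞 ↥(F ⊔ E)))) ≤ C * (m + 1)

/-- The theorem, see above. -/
theorem result {p : ℕ} [Fact p.Prime] (hp : p ≠ 2) (hmu : IsCohomological p (MuZero p)) :
    ((∀ K : Fld ℚ, FiniteDimensional ℚ K → MuZero p K) ↔ ∀ K : Fld ℚ, FiniteDimensional ℚ K →
      (HasRealPlace K ∨ (IsCMField K ∧ ¬ p ∣ Module.finrank ℚ K)) → HasFreeModule p (AutOf K) →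
      MuZero p K) ∧
    (∀ M : Fld ℚ, FiniteDimensional ℚ M → ¬ HasFreeModule p (AutOf M) → (∀ L, L < M → MuZero p L) →
      MuZero p M) ∧
    ∀ N : Fld ℚ, FiniteDimensional ℚ N → Normal ℚ N →
      (∀ 𝒦 : Set (Fld ℚ), (∀ K ∈ 𝒦, K ≤ N) → IsRichIn p N 𝒦 →
        (MuZero p N ↔ ∀ K ∈ 𝒦, MuZero p K)) ∧
      ∀ c : Aut ℚ, IsConjugation c →
        (MuZero p N ↔ MuZero p (realPart N c) ∧ MuZero p (cmPart N c)) ∧
        (cmPart N c ≤ realPart N c → (MuZero p N ↔ MuZero p (realPart N c))) ∧
        (HoldsForAbelian (MuZero p) → IsAbelianGalois ℚ (cmPart N c) →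
          (MuZero p N ↔ MuZero p (realPart N c))) ∧
        HasRealPlace (realPart N c) ∧ (HasRealPlace (cmPart N c) ∨ IsCMField (cmPart N c)) :=
  mu_main hp (MuZero p) hmu

end Pool.Agent.Results.MP_a4986b_nt.RealAndCMFields
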